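import Pool.Agent.H534R3.XApp

/-!
# Differences of the sets of normal vectors for two multiplicatively independent bases

For all multiplicatively independent integers `a, b > 1` and every `k`, the set of the real
polynomials `g` of degree at most `k` such that `g(n) a ^ n` is uniformly distributed modulo one and
`g(n) b ^ n` is not is complete for the class of the differences of two sets of the third
multiplicative class.

The Baire space is mapped continuously to the constant polynomials by the reduction for two real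
bases with irrational ratio of the logarithms, and the diagonal argument is applied to the
composition.
-/

set_option autoImplicit false

open Filter Topology

namespace Pool.Agent.Results.MP_df8ac3_lc.PolynomialDifferences

/-- The sequence `x` is uniformly distributed modulo one. -/
def IsUD (x : ℕ → ℝ) : Prop := ∀ s t : ℝ, 0 ≤ s → s < t → t ≤ 1 →
  Tendsto
    (fun N : ℕ =>
      (((Finset.range N).filter (fun n => s ≤ Int.fract (x n) ∧ Int.fract (x n) < t)).card : ℝ)
        / (N : ℝ))
    atTop (nhds (t - s))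

/-- The set `N_{a,k}` of the real polynomials `g` of degree at most `k`, identified with their
coefficient vectors `c` (so that `g(n) = ∑ i, c i * n ^ i`), such that the sequence `g(n) a ^ n` is
uniformly distributed modulo one. -/
def NormalPoly (a k : ℕ) : Set (Fin (k + 1) → ℝ) :=
  {c | IsUD (fun n => (∑ i : Fin (k + 1), c i * (n : ℝ) ^ (i : ℕ)) * (a : ℝ) ^ n)}

/-- `A` is a countable intersection of countable unions of closed sets. -/
def IsPiThree {X : Type} [TopologicalSpace X] (A : Set X) : Prop :=
  ∃ F : ℕ → ℕ → Set X, (∀ i j, IsClosed (F i j)) ∧ A = ⋂ i, ⋃ j, F i j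

/-- `D` is the difference of two sets of the third multiplicative class. -/
def IsDTwo {X : Type} [TopologicalSpace X] (D : Set X) : Prop :=
  ∃ A B : Set X, IsPiThree A ∧ IsPiThree B ∧ D = A \ B

/-- `D` is complete for the class of the differences of two sets of the third multiplicative class:
it belongs to the class and its complement does not. -/
def IsDTwoComplete {X : Type} [TopologicalSpace X] (D : Set X) : Prop :=
  IsDTwo D ∧ ¬ IsDTwo Dᶜ

theorem piThree_preimage {X Y : Type} [TopologicalSpace X] [TopologicalSpace Y] {f : X → Y}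
    (hf : Continuous f) {A : Set Y} (hA : IsPiThree A) : IsPiThree (f ⁻¹' A) := by
  obtain ⟨F, hF, rfl⟩ := hA
  refine ⟨fun i j => f ⁻¹' F i j, fun i j => (hF i j).preimage hf, ?_⟩
  simp only [Set.preimage_iInter, Set.preimage_iUnion]

theorem isUD_iff (x : ℕ → ℝ) : IsUD x ↔ Pool.Agent.H534R3.UDist.UD x := by
  constructor
  · intro h s t hs hst ht
    rcases hst.lt_or_eq with h1 | h1
    · exact h s t hs h1 ht
    · subst h1
      have h2 : ∀ N : ℕ, (Finset.range N).filter
          (fun n => s ≤ Int.fract (x n) ∧ Int.fract (x n) < s) = ∅ := by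
        intro N
        rw [Finset.filter_eq_empty_iff]
        intro n _ h3
        exact absurd h3.2 (not_lt.2 h3.1)
      simp only [h2, Finset.card_empty, Nat.cast_zero, zero_div, sub_self]
      exact tendsto_const_nhds
  · intro h s t hs hst ht
    exact h s t hs hst.le ht

theorem log_ratio {a b : ℕ} (ha : 1 < a) (hb : 1 < b)
    (hab : ∀ m n : ℕ, 0 < m → 0 < n → a ^ m ≠ b ^ n) :
    Irrational (Real.log |(a : ℝ)| / Real.log |(b : ℝ)|) := by
  have h1 := Pool.Agent.H534R3.Rota.irr_logb ha hb hab 1 le_rfl
  rw [pow_one, Real.logb] at h1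
  rwa [Nat.abs_cast, Nat.abs_cast]

theorem isPiThree_normalPoly (a k : ℕ) : IsPiThree (NormalPoly a k) := by
  obtain ⟨F, hF, hFe⟩ := Pool.Agent.H534R3.UDist.ud_piThree
    (fun (c : Fin (k + 1) → ℝ) (n : ℕ) =>
      (∑ i : Fin (k + 1), c i * (n : ℝ) ^ (i : ℕ)) * (a : ℝ) ^ n) (fun n => by fun_prop)
  refine ⟨F, hF, ?_⟩
  rw [← hFe]
  ext c
  exact isUD_iff _

/-- The constant polynomials. -/
def constPoly (k : ℕ) (ξ : ℝ) : Fin (k + 1) → ℝ := fun i => if (i : ℕ) = 0 then ξ else 0

theorem continuous_constPoly (k : ℕ) : Continuous (constPoly k) := by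
  refine continuous_pi fun i => ?_
  unfold constPoly
  split_ifs
  · exact continuous_id
  · exact continuous_const

theorem constPoly_mem (a k : ℕ) (ξ : ℝ) :
    constPoly k ξ ∈ NormalPoly a k ↔ Pool.Agent.H534R3.UDist.UD (fun n => ξ * (a : ℝ) ^ n) := by
  rw [← isUD_iff]
  have h1 : (fun n : ℕ => (∑ i : Fin (k + 1), constPoly k ξ i * (n : ℝ) ^ (i : ℕ)) * (a : ℝ) ^ n) =
      fun n : ℕ => ξ * (a : ℝ) ^ n := by
    funext n
    congr 1
    rw [Fin.sum_univ_succ]
    simp [constPoly]
  change IsUD _ ↔ _
  rw [h1]

/-- For all multiplicatively independent integers `a, b > 1` and every `k`, the set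
`N_{a,k} \ N_{b,k}` is complete for the class of the differences of two sets of the third
multiplicative class. -/
theorem result (a b : ℕ) (ha : 1 < a) (hb : 1 < b)
    (hab : ∀ m n : ℕ, 0 < m → 0 < n → a ^ m ≠ b ^ n) (k : ℕ) :
    IsDTwoComplete (NormalPoly a k \ NormalPoly b k) := by
  refine ⟨⟨_, _, isPiThree_normalPoly a k, isPiThree_normalPoly b k, rfl⟩, ?_⟩
  rintro ⟨A, B, hA, hB, hAB⟩
  obtain ⟨g, hg, hga, hgb⟩ := Pool.Agent.H534R3.Rota.reduce_two_real (a : ℝ) (b : ℝ)
    (by rw [Nat.abs_cast]; exact_mod_cast ha) (by rw [Nat.abs_cast]; exact_mod_cast hb)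
    (log_ratio ha hb hab)
  have hG : Continuous fun w => constPoly k (g w) := (continuous_constPoly k).comp hg
  obtain ⟨F, hF, hFe⟩ := piThree_preimage hG hA
  obtain ⟨F', hF', hFe'⟩ := piThree_preimage hG hB
  refine Pool.Agent.H534R3.Rota.no_dual
    (fun w t => ∀ e, ∃ J, ∀ j, J ≤ j → Pool.Agent.H534R3.Rota.ty j = t → e ≤ w j)
    (fun w t => Iff.rfl) F F' hF hF' ?_
  rw [← hFe, ← hFe', ← Set.preimage_sdiff, ← hAB, Set.preimage_compl]
  congr 1
  ext w
  change _ ↔ constPoly k (g w) ∈ NormalPoly a k ∧ constPoly k (g w) ∉ NormalPoly b k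
  rw [constPoly_mem, constPoly_mem, hga, hgb]
  exact Iff.rfl

end Pool.Agent.Results.MP_df8ac3_lc.PolynomialDifferences
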